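import Mathlib

/-!
# Cross products with `R_w ^ 3 = - n(w, w) R_w`
-/

namespace Quad46

variable {F V : Type*} [Field F] [AddCommGroup V] [Module F V]

/-- The data: a symmetric nondegenerate bilinear form `B` and an alternating product `X`
with `B (X x y) z` alternating and `R_w ^ 3 = - B w w • R_w`. -/
structure Cross (B : V →ₗ[F] V →ₗ[F] F) (X : V →ₗ[F] V →ₗ[F] V) : Prop where
  two : (2 : F) ≠ 0
  symm : ∀ x y, B x y = B y x
  nondeg : ∀ x, (∀ y, B x y = 0) → x = 0
  alt : ∀ x, X x x = 0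
  cyc : ∀ x y z, B (X x y) z = B x (X y z)
  cube : ∀ v w, X (X (X v w) w) w = -(B w w) • X v w

variable {B : V →ₗ[F] V →ₗ[F] F} {X : V →ₗ[F] V →ₗ[F] V} (H : Cross B X)

namespace Cross
include H

theorem neg (x y : V) : X y x = -X x y := by
  have h := H.alt (x + y)
  simp only [map_add, LinearMap.add_apply, H.alt] at h
  rw [zero_add, add_zero] at h
  exact eq_neg_of_add_eq_zero_left h

theorem half {x : V} (h : (2 : F) • x = 0) : x = 0 := by
  rcases smul_eq_zero.1 h with h | h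
  · exact absurd h H.two
  · exact h

/-- linearised identity, `z` twice and `w` once -/
theorem lin (v w z : V) : X (X (X v w) z) z + X (X (X v z) w) z + X (X (X v z) z) w =
    -(B z z) • X v w - (2 * B w z) • X v z := by
  have h1 := H.cube v (w + z)
  have h2 := H.cube v (w - z)
  have h3 := H.cube v w
  have hs := H.symm z w
  simp only [map_add, map_sub, LinearMap.add_apply, LinearMap.sub_apply, hs] at h1 h2 h3
  have h4 : (2 : F) • (X (X (X v w) z) z + X (X (X v z) w) z + X (X (X v z) z) w -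
    (-(B z z) • X v w - (2 * B w z) • X v z)) = 0 := by
    linear_combination (norm := module) h1 + h2 - (2 : F) • h3
  exact sub_eq_zero.1 (H.half h4)

/-- skewness of right multiplication -/
theorem skew (x y w : V) : B (X x w) y = -B x (X y w) := by
  rw [H.cyc, H.neg y w, map_neg]

/-- the kernel of `R_w` is abelian when `w` is not isotropic -/
theorem ker_abelian {w : V} (hw : B w w ≠ 0) {k k' : V} (hk : X k w = 0) (hk' : X k' w = 0) :
    X k k' = 0 := by
  apply H.nondeg
  have h1 : B (X k k') w = 0 := by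
    rw [H.cyc, hk', map_zero]
  -- for z orthogonal to w
  have h2 : ∀ z, B w z = 0 → B (X k k') z = 0 := by
    intro z hz
    have h := H.lin k z w
    rw [hk] at h
    have h3 := congrArg (fun t => B t k') h
    have h4 : X w w = 0 := H.alt w
    simp only [map_zero, LinearMap.zero_apply, add_zero, map_sub, map_smul,
      LinearMap.sub_apply, LinearMap.smul_apply, smul_eq_mul, H.symm z w, hz, mul_zero,
      sub_zero] at h3
    rw [H.skew, hk'] at h3
    simp only [map_zero, neg_zero] at h3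
    have h5 : B (X k z) k' = 0 := by
      rcases mul_eq_zero.1 h3.symm with h6 | h6
      · exact absurd (neg_eq_zero.1 h6) hw
      · exact h6
    have h6 : B (X k k') z = -B (X k z) k' := by
      rw [H.cyc, H.cyc, H.neg z k', map_neg]
    rw [h6, h5, neg_zero]
  intro y
  have h3 : B w (y - (B w y / B w w) • w) = 0 := by
    rw [map_sub, map_smul, smul_eq_mul, div_mul_cancel₀ _ hw, sub_self]
  have h4 := h2 _ h3
  rw [map_sub, map_smul, h1, smul_zero, sub_zero] at h4
  exact h4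


/-- an element annihilated by everything is zero unless the product is zero -/
theorem center {k : V} (hk : ∀ v, X v k = 0) (hk0 : k ≠ 0) (x y : V) : X x y = 0 := by
  obtain ⟨z0, hz0⟩ : ∃ z, B k z ≠ 0 := by
    by_contra hc
    push Not at hc
    exact hk0 (H.nondeg k hc)
  have key : ∀ z, B k z ≠ 0 → ∀ v, X v z = 0 := by
    intro z hz v
    have h := H.lin v k z
    rw [hk, hk, hk, map_zero, LinearMap.zero_apply, map_zero, smul_zero, LinearMap.zero_apply] at h
    simp only [add_zero, zero_sub] at h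
    have h2 : (2 * B k z) • X v z = 0 := neg_eq_zero.1 h.symm
    rcases smul_eq_zero.1 h2 with h3 | h3
    · rcases mul_eq_zero.1 h3 with h4 | h4
      · exact absurd h4 H.two
      · exact absurd h4 hz
    · exact h3
  by_cases hy : B k y = 0
  · have h1 : B k (y + z0) ≠ 0 := by rw [map_add, hy, zero_add]; exact hz0
    have h2 := key _ h1 x
    rw [map_add, key z0 hz0 x, add_zero] at h2
    exact h2
  · exact key y hy x

/-- if the kernel of `R_w` is spanned by `w` then `R_w ^ 2` is as for a vector cross product -/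
theorem sq_of_ker {w : V} (hw : B w w ≠ 0) (hk : ∀ k, X k w = 0 → ∃ c : F, k = c • w) (v : V) :
    X (X v w) w = -(B w w) • v + (B v w) • w := by
  have h1 : X (X (X v w) w + (B w w) • v - (B v w) • w) w = 0 := by
    simp only [map_add, map_sub, map_smul, LinearMap.add_apply, LinearMap.sub_apply,
      LinearMap.smul_apply, H.cube, H.alt]
    module
  obtain ⟨c, hc⟩ := hk _ h1
  have h2 : B (X (X v w) w + (B w w) • v - (B v w) • w) w = 0 := by
    simp only [map_add, map_sub, map_smul, LinearMap.add_apply, LinearMap.sub_apply,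
      LinearMap.smul_apply, smul_eq_mul]
    rw [H.cyc, H.alt, map_zero]
    ring
  rw [hc, map_smul, LinearMap.smul_apply, smul_eq_mul] at h2
  have h3 : c = 0 := (mul_eq_zero.1 h2).resolve_right hw
  rw [h3, zero_smul] at hc
  linear_combination (norm := module) hc

/-- a nonisotropic vector orthogonal to an isotropic one -/
theorem exists_perp {w : V} (hw : w ≠ 0) (hww : B w w = 0) (hX : ∃ x y, X x y ≠ 0) :
    ∃ u, B u w = 0 ∧ B u u ≠ 0 := by
  by_contra hc
  push Not at hc
  have h1 : ∀ u u', B u w = 0 → B u' w = 0 → B u u' = 0 := by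
    intro u u' hu hu'
    have h := hc (u + u') (by rw [map_add, LinearMap.add_apply, hu, hu', add_zero])
    simp only [map_add, LinearMap.add_apply, hc u hu, hc u' hu', H.symm u' u] at h
    have h2 : 2 * B u u' = 0 := by linear_combination h
    exact (mul_eq_zero.1 h2).resolve_left H.two
  obtain ⟨z, hz⟩ : ∃ z, B w z ≠ 0 := by
    by_contra hc
    push Not at hc
    exact hw (H.nondeg w hc)
  have h2 : ∀ u, B u w = 0 → ∃ c : F, u = c • w := by
    intro u hu
    refine ⟨B u z / B w z, ?_⟩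
    rw [← sub_eq_zero]
    apply H.nondeg
    intro y
    have hzw : B z w ≠ 0 := by rw [H.symm]; exact hz
    have h3 : B (y - (B y w / B z w) • z) w = 0 := by
      rw [map_sub, map_smul, LinearMap.sub_apply, LinearMap.smul_apply, smul_eq_mul,
        div_mul_cancel₀ _ hzw, sub_self]
    have h4 := h1 (u - (B u z / B w z) • w) _ (by
      rw [map_sub, map_smul, LinearMap.sub_apply, LinearMap.smul_apply, hu, hww, smul_zero,
        sub_zero]) h3
    have h5 : B (u - (B u z / B w z) • w) z = 0 := by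
      rw [map_sub, map_smul, LinearMap.sub_apply, LinearMap.smul_apply, smul_eq_mul,
        div_mul_cancel₀ _ hz, sub_self]
    rw [map_sub, map_smul, h5, smul_zero, sub_zero] at h4
    exact h4
  have h3 : ∀ x, ∃ a b : F, x = a • w + b • z := by
    intro x
    have hzw : B z w ≠ 0 := by rw [H.symm]; exact hz
    obtain ⟨c, hc⟩ := h2 (x - (B x w / B z w) • z) (by
      rw [map_sub, map_smul, LinearMap.sub_apply, LinearMap.smul_apply, smul_eq_mul,
        div_mul_cancel₀ _ hzw, sub_self])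
    exact ⟨c, B x w / B z w, by rw [← hc]; module⟩
  have h4 : X w z = 0 := by
    apply H.nondeg
    intro y
    obtain ⟨a, b, rfl⟩ := h3 y
    have h5 : B (X w z) w = 0 := by
      rw [H.cyc, H.neg w z, map_neg, ← H.cyc, H.alt, map_zero, LinearMap.zero_apply, neg_zero]
    have h6 : B (X w z) z = 0 := by rw [H.cyc, H.alt, map_zero]
    rw [map_add, map_smul, map_smul, h5, h6, smul_zero, smul_zero, add_zero]
  obtain ⟨x, y, hxy⟩ := hX
  obtain ⟨a, b, rfl⟩ := h3 x
  obtain ⟨c, d, rfl⟩ := h3 y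
  apply hxy
  have h5 : X z w = 0 := by rw [H.neg, h4, neg_zero]
  simp only [map_add, map_smul, LinearMap.add_apply, LinearMap.smul_apply, H.alt, h4, h5,
    smul_zero, add_zero]

/-- case A -/
theorem caseA (hX : ∃ x y, X x y ≠ 0)
    (hk : ∀ w, B w w ≠ 0 → ∀ k, X k w = 0 → ∃ c : F, k = c • w) (v w : V) :
    X (X v w) w = -(B w w) • v + (B v w) • w := by
  by_cases hw : B w w = 0
  · by_cases hw0 : w = 0
    · subst hw0; simp
    · obtain ⟨u, hu, huu⟩ := H.exists_perp hw0 hw hX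
      have hwu : B w u = 0 := by rw [H.symm]; exact hu
      have e1 : B (u + w) (u + w) = B u u := by
        simp only [map_add, LinearMap.add_apply, hu, hwu, hw, add_zero]
      have e2 : B (u - w) (u - w) = B u u := by
        simp only [map_sub, LinearMap.sub_apply, hu, hwu, hw, sub_zero]
      have h1 := H.sq_of_ker (w := u + w) (by rw [e1]; exact huu) (hk _ (by rw [e1]; exact huu)) v
      have h2 := H.sq_of_ker (w := u - w) (by rw [e2]; exact huu) (hk _ (by rw [e2]; exact huu)) v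
      have h3 := H.sq_of_ker huu (hk _ huu) v
      rw [e1] at h1
      rw [e2] at h2
      simp only [map_add, map_sub, LinearMap.add_apply, LinearMap.sub_apply] at h1 h2
      have h4 : (2 : F) • (X (X v w) w - (-(B w w) • v + (B v w) • w)) = 0 := by
        rw [hw]
        linear_combination (norm := module) h1 + h2 - (2 : F) • h3
      exact sub_eq_zero.1 (H.half h4)
  · exact H.sq_of_ker hw (hk w hw) v


/-- decomposition along a nonisotropic vector: the `K`-part -/
theorem partK {w : V} (hw : B w w ≠ 0) (y : V) :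
    X (y + (B w w)⁻¹ • X (X y w) w) w = 0 := by
  rw [map_add, map_smul, LinearMap.add_apply, LinearMap.smul_apply, H.cube, smul_smul,
    mul_neg, inv_mul_cancel₀ hw]
  module

/-- the image of `R_w` is orthogonal to the kernel -/
theorem im_perp {w k : V} (hk : X k w = 0) (v : V) : B k (X v w) = 0 := by
  have h := H.skew k v w
  rw [hk, map_zero, LinearMap.zero_apply] at h
  exact neg_eq_zero.1 h.symm

/-- the existence of a second direction -/
theorem exists_second {w k : V} (hw : B w w ≠ 0) (hk : X k w = 0) (hk2 : ∀ c : F, k ≠ c • w) :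
    ∃ u, B u u ≠ 0 ∧ X u w = 0 ∧ B u w = 0 := by
  by_contra hc
  push Not at hc
  set k' := k - (B k w / B w w) • w with hk'
  have h1 : X k' w = 0 := by
    rw [hk', map_sub, map_smul, LinearMap.sub_apply, LinearMap.smul_apply, hk, H.alt, smul_zero,
      sub_zero]
  have h2 : B k' w = 0 := by
    rw [hk', map_sub, map_smul, LinearMap.sub_apply, LinearMap.smul_apply, smul_eq_mul,
      div_mul_cancel₀ _ hw, sub_self]
  have h3 : ∀ u u', X u w = 0 → B u w = 0 → X u' w = 0 → B u' w = 0 → B u u' = 0 := by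
    intro u u' a1 a2 a3 a4
    have iso : ∀ u, X u w = 0 → B u w = 0 → B u u = 0 := by
      intro u b1 b2
      by_contra b3
      exact hc u b3 b1 b2
    have h := iso (u + u') (by rw [map_add, LinearMap.add_apply, a1, a3, add_zero])
      (by rw [map_add, LinearMap.add_apply, a2, a4, add_zero])
    simp only [map_add, LinearMap.add_apply, iso u a1 a2, iso u' a3 a4, H.symm u' u] at h
    have h2 : 2 * B u u' = 0 := by linear_combination h
    exact (mul_eq_zero.1 h2).resolve_left H.two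
  have h4 : k' = 0 := by
    apply H.nondeg
    intro y
    set yk := y + (B w w)⁻¹ • X (X y w) w with hyk
    have e1 : X yk w = 0 := H.partK hw y
    have e2 : B k' yk = 0 := by
      have e3 := h3 k' (yk - (B yk w / B w w) • w) h1 h2
        (by rw [map_sub, map_smul, LinearMap.sub_apply, LinearMap.smul_apply, e1, H.alt,
          smul_zero, sub_zero])
        (by rw [map_sub, map_smul, LinearMap.sub_apply, LinearMap.smul_apply, smul_eq_mul,
          div_mul_cancel₀ _ hw, sub_self])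
      rw [map_sub, map_smul, h2, smul_zero, sub_zero] at e3
      exact e3
    have e4 : B k' (X (X y w) w) = 0 := H.im_perp h1 _
    rw [hyk, map_add, map_smul, e4, smul_zero, add_zero] at e2
    exact e2
  exact hk2 _ (sub_eq_zero.1 h4)

section pair

variable {w₁ w₂ : V} (h₁ : B w₁ w₁ ≠ 0) (h₂ : B w₂ w₂ ≠ 0) (h₁₂ : B w₁ w₂ = 0)
  (hX : X w₂ w₁ = 0)

include h₁ h₂ hX

theorem ker_iff (k : V) : X k w₁ = 0 ↔ X k w₂ = 0 := by
  have hX' : X w₁ w₂ = 0 := by rw [H.neg, hX, neg_zero]
  exact ⟨fun h => H.ker_abelian h₁ h hX, fun h => H.ker_abelian h₂ h hX'⟩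

omit h₂ hX in
/-- `R₁² = - c₁` on `M = Kᗮ` -/
theorem sqM {m : V} (hm : ∀ k, X k w₁ = 0 → B k m = 0) : X (X m w₁) w₁ = -(B w₁ w₁) • m := by
  have h : m + (B w₁ w₁)⁻¹ • X (X m w₁) w₁ = 0 := by
    apply H.nondeg
    intro y
    set t := m + (B w₁ w₁)⁻¹ • X (X m w₁) w₁ with ht
    have e1 : X t w₁ = 0 := H.partK h₁ m
    have e2 : ∀ k, X k w₁ = 0 → B k t = 0 := by
      intro k hk
      rw [ht, map_add, map_smul, hm k hk, H.im_perp hk, smul_zero, add_zero]
    set yk := y + (B w₁ w₁)⁻¹ • X (X y w₁) w₁ with hyk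
    have e3 : X yk w₁ = 0 := H.partK h₁ y
    have e4 : B t yk = 0 := by rw [H.symm]; exact e2 yk e3
    rw [hyk, map_add, map_smul, H.im_perp e1, smul_zero, add_zero] at e4
    exact e4
  have h' : B w₁ w₁ • m + X (X m w₁) w₁ = 0 := by
    have := congrArg (fun t => B w₁ w₁ • t) h
    simp only [smul_add, smul_smul, mul_inv_cancel₀ h₁, one_smul, smul_zero] at this
    exact this
  linear_combination (norm := module) h'

omit h₁ h₂ hX in
theorem inM_im {v : V} : ∀ k, X k w₁ = 0 → B k (X v w₁) = 0 := fun _ hk => H.im_perp hk v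

theorem inM_im2 {v : V} : ∀ k, X k w₁ = 0 → B k (X v w₂) = 0 := fun k hk =>
  H.im_perp ((H.ker_iff h₁ h₂ hX k).1 hk) v

/-- `R₂² = - c₂` on `M` -/
theorem sqM2 {m : V} (hm : ∀ k, X k w₁ = 0 → B k m = 0) : X (X m w₂) w₂ = -(B w₂ w₂) • m :=
  H.sqM h₂ fun k hk => hm k ((H.ker_iff h₁ h₂ hX k).2 hk)

omit h₂ hX in
/-- anticommutation with `R₁` on `M` of `R_k`, `k` orthogonal to `w₁` in `K` -/
theorem anti {k : V} (hk : X k w₁ = 0) (hk1 : B k w₁ = 0) {m : V}
    (hm : ∀ k, X k w₁ = 0 → B k m = 0) : X (X m w₁) k = -X (X m k) w₁ := by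
  -- `R_k m ∈ M`
  have hkM : ∀ v, ∀ k', X k' w₁ = 0 → B k' (X v k) = 0 := by
    intro v k' hk'
    have h3 : X k' k = 0 := H.ker_abelian h₁ hk' hk
    exact H.im_perp h3 v
  have key : ∀ m, (∀ k, X k w₁ = 0 → B k m = 0) →
      X (X (X m w₁) k) w₁ = B w₁ w₁ • X m k := by
    intro m hm
    have h := H.lin m k w₁
    rw [H.sqM h₁ hm, H.sqM h₁ (hkM m), hk1] at h
    simp only [map_smul, LinearMap.smul_apply, mul_zero, zero_smul, sub_zero] at h
    linear_combination (norm := module) h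
  have h := key (X m w₁) H.inM_im
  rw [H.sqM h₁ hm] at h
  simp only [map_smul, LinearMap.smul_apply] at h
  have h3 : B w₁ w₁ • (X (X m w₁) k + X (X m k) w₁) = 0 := by
    linear_combination (norm := module) -(1 : F) • h
  rcases smul_eq_zero.1 h3 with h4 | h4
  · exact absurd h4 h₁
  · linear_combination (norm := module) h4


omit h₁ h₂ hX in
/-- injectivity of `R_w` on `M` in the form: `M ∩ ker = 0` -/
theorem inter {w : V} (hw : B w w ≠ 0) {m : V} (hm : ∀ k, X k w = 0 → B k m = 0)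
    (hk : X m w = 0) : m = 0 := by
  have h := H.sqM hw hm
  rw [hk, map_zero, LinearMap.zero_apply] at h
  have h2 : (-(B w w)) • m = 0 := h.symm
  rcases smul_eq_zero.1 h2 with h3 | h3
  · exact absurd (neg_eq_zero.1 h3) hw
  · exact h3

omit h₁ h₂ hX in
/-- key relation for products of elements of `M`, one direction -/
theorem mulM {w : V} (hw : B w w ≠ 0) {m' m : V} (hm' : ∀ k, X k w = 0 → B k m' = 0)
    (hm : ∀ k, X k w = 0 → B k m = 0) :
    X (X (X m' w) m) w = -X (X (X m' m) w) w := by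
  have h := H.lin m' m w
  have h0 : B m w = 0 := by rw [H.symm]; exact hm w (H.alt w)
  rw [H.sqM hw hm', h0] at h
  simp only [map_smul, LinearMap.smul_apply, mul_zero, zero_smul, sub_zero] at h
  linear_combination (norm := module) h

/-- `M × M ⊆ K` -/
theorem mulMM (h21 : B w₂ w₁ = 0) {m' m : V} (hm' : ∀ k, X k w₁ = 0 → B k m' = 0)
    (hm : ∀ k, X k w₁ = 0 → B k m = 0) : X (X m' m) w₁ = 0 := by
  have hX' : X w₁ w₂ = 0 := by rw [H.neg, hX, neg_zero]
  have hiff := H.ker_iff h₁ h₂ hX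
  have c2 : ∀ {m : V}, (∀ k, X k w₁ = 0 → B k m = 0) → ∀ k, X k w₂ = 0 → B k m = 0 :=
    fun h k hk => h k ((hiff k).2 hk)
  -- R₁ (R₁m' × m) = - R₁² (m' × m), same for R₂ and with the arguments exchanged
  have M1 : ∀ v, ∀ k, X k w₁ = 0 → B k (X v w₁) = 0 := fun v => H.inM_im
  have M2 : ∀ v, ∀ k, X k w₁ = 0 → B k (X v w₂) = 0 := fun v => H.inM_im2 h₁ h₂ hX
  -- p = R₁² (m' × m) / (-c₁) is the M-part; use a = R₁ (m' × m)
  have anti12 : ∀ m, (∀ k, X k w₁ = 0 → B k m = 0) → X (X m w₁) w₂ = -X (X m w₂) w₁ :=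
    fun m hm => H.anti h₁ hX h21 hm
  -- the M-part of a vector is determined by its image under R₁ or R₂
  have e1 : ∀ a b, (∀ k, X k w₁ = 0 → B k a = 0) → (∀ k, X k w₁ = 0 → B k b = 0) →
      X (X (X a w₁) b) w₁ = -X (X (X a b) w₁) w₁ := fun a b ha hb => H.mulM h₁ ha hb
  have e2 : ∀ a b, (∀ k, X k w₁ = 0 → B k a = 0) → (∀ k, X k w₁ = 0 → B k b = 0) →
      X (X (X a w₂) b) w₂ = -X (X (X a b) w₂) w₂ := fun a b ha hb => H.mulM h₂ (c2 ha) (c2 hb)
  -- M-part
  obtain ⟨p, hp, hp1⟩ : ∃ p, (∀ k, X k w₁ = 0 → B k p = 0) ∧ X (X m' m - p) w₁ = 0 := by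
    refine ⟨-((B w₁ w₁)⁻¹ • X (X (X m' m) w₁) w₁), ?_, ?_⟩
    · intro k hk
      rw [map_neg, map_smul, M1 _ k hk, smul_zero, neg_zero]
    · have := H.partK h₁ (X m' m)
      rw [sub_neg_eq_add]
      exact this
  have partOf : ∀ y q, (∀ k, X k w₁ = 0 → B k q = 0) → X (y - q) w₁ = 0 →
      X y w₁ = X q w₁ ∧ X y w₂ = X q w₂ := by
    intro y q _ h
    have h' := (hiff _).1 h
    rw [map_sub, LinearMap.sub_apply] at h h'
    exact ⟨sub_eq_zero.1 h, sub_eq_zero.1 h'⟩
  have hpp := partOf _ _ hp hp1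
  -- (R₁ m') × m has M-part -R₁ p
  have f1 : X (X (X m' w₁) m - (-X p w₁)) w₁ = 0 := by
    have h := e1 m' m hm' hm
    rw [hpp.1] at h
    rw [map_sub, map_neg, LinearMap.sub_apply, LinearMap.neg_apply, h]
    abel
  have f1' := (hiff _).1 f1
  -- m' × (R₂ m) has M-part -R₂ p
  have f2 : X (X m' (X m w₂) - (-X p w₂)) w₂ = 0 := by
    have h := e2 m m' hm hm'
    rw [H.neg m' (X m w₂), H.neg m' m] at h
    simp only [map_neg, LinearMap.neg_apply, neg_neg] at h
    rw [hpp.2] at h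
    rw [map_sub, map_neg, LinearMap.sub_apply, LinearMap.neg_apply]
    linear_combination (norm := module) -(1 : F) • h
  have f2' := (hiff _).2 f2
  -- (R₁ m') × (R₂ m) computed in two ways
  have g1 : X (X (X m' w₁) (X m w₂)) w₁ = X (X (X p w₂) w₁) w₁ := by
    have h := e1 m' (X m w₂) hm' (M2 m)
    rw [map_sub, map_neg, LinearMap.sub_apply, LinearMap.neg_apply] at f2'
    have h3 : X (X m' (X m w₂)) w₁ = -X (X p w₂) w₁ := by
      linear_combination (norm := module) f2'
    rw [h3] at h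
    rw [h, map_neg, LinearMap.neg_apply, neg_neg]
  have g2 : X (X (X m' w₁) (X m w₂)) w₂ = X (X (X p w₁) w₂) w₂ := by
    have h := e2 m (X m' w₁) hm (M1 m')
    rw [H.neg (X m' w₁) (X m w₂), H.neg (X m' w₁) m] at h
    simp only [map_neg, LinearMap.neg_apply, neg_neg] at h
    rw [map_sub, map_neg, LinearMap.sub_apply, LinearMap.neg_apply] at f1'
    have h3 : X (X (X m' w₁) m) w₂ = -X (X p w₁) w₂ := by
      linear_combination (norm := module) f1'
    rw [h3] at h
    simp only [map_neg, LinearMap.neg_apply] at h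
    linear_combination (norm := module) -(1 : F) • h
  -- hence R₁R₂p = R₂R₁p as M-parts
  have g3 : X (X (X m' w₁) (X m w₂) - X (X p w₂) w₁) w₁ = 0 := by
    rw [map_sub, LinearMap.sub_apply, g1, sub_self]
  have g4 : X (X (X m' w₁) (X m w₂) - X (X p w₁) w₂) w₁ = 0 := by
    apply (hiff _).2
    rw [map_sub, LinearMap.sub_apply, g2, sub_self]
  have g5 : X (X (X p w₂) w₁ - X (X p w₁) w₂) w₁ = 0 := by
    rw [map_sub, LinearMap.sub_apply] at g3 g4 ⊢
    linear_combination (norm := module) g4 - g3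
  rw [anti12 p hp] at g5
  have g6 : X (X (X p w₂) w₁) w₁ = 0 := by
    apply H.half
    rw [sub_neg_eq_add, map_add, LinearMap.add_apply] at g5
    linear_combination (norm := module) g5
  rw [H.sqM h₁ (M2 p)] at g6
  have g7 : X p w₂ = 0 := by
    rcases smul_eq_zero.1 g6 with h | h
    · exact absurd (neg_eq_zero.1 h) h₁
    · exact h
  have g8 : p = 0 := H.inter h₂ (c2 hp) g7
  rw [g8, sub_zero] at hp1
  exact hp1


/-- `K` is spanned by `w₁, w₂` -/
theorem K_two (h21 : B w₂ w₁ = 0) (hne : ∃ x y, X x y ≠ 0) {k₃ : V} (hk : X k₃ w₁ = 0)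
    (hk1 : B k₃ w₁ = 0) (hk2 : B k₃ w₂ = 0) : k₃ = 0 := by
  have hiff := H.ker_iff h₁ h₂ hX
  have hX' : X w₁ w₂ = 0 := by rw [H.neg, hX, neg_zero]
  have c2 : ∀ {m : V}, (∀ k, X k w₁ = 0 → B k m = 0) → ∀ k, X k w₂ = 0 → B k m = 0 :=
    fun h k hk => h k ((hiff k).2 hk)
  have M1 : ∀ v, ∀ k, X k w₁ = 0 → B k (X v w₁) = 0 := fun v => H.inM_im
  have M2 : ∀ v, ∀ k, X k w₁ = 0 → B k (X v w₂) = 0 := fun v => H.inM_im2 h₁ h₂ hX
  have M3 : ∀ v, ∀ k, X k w₁ = 0 → B k (X v k₃) = 0 := fun v k' hk' =>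
    H.im_perp (H.ker_abelian h₁ hk' hk) v
  have a12 : ∀ m, (∀ k, X k w₁ = 0 → B k m = 0) → X (X m w₁) w₂ = -X (X m w₂) w₁ :=
    fun m hm => H.anti h₁ hX h21 hm
  have a13 : ∀ m, (∀ k, X k w₁ = 0 → B k m = 0) → X (X m w₁) k₃ = -X (X m k₃) w₁ :=
    fun m hm => H.anti h₁ hk hk1 hm
  have a23 : ∀ m, (∀ k, X k w₁ = 0 → B k m = 0) → X (X m w₂) k₃ = -X (X m k₃) w₂ :=
    fun m hm => H.anti h₂ ((hiff _).1 hk) hk2 (c2 hm)
  -- the form `(R₁R₂ m, R₃ m)` vanishes
  have C : ∀ m, (∀ k, X k w₁ = 0 → B k m = 0) → B (X (X m w₂) w₁) (X m k₃) = 0 := by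
    intro m hm
    have h := H.lin w₂ w₁ m
    rw [hX, H.symm w₁ m, show B m w₁ = 0 from by rw [H.symm]; exact hm w₁ (H.alt w₁)] at h
    have h3 : ∀ k, X k w₁ = 0 → B k (X w₂ m) = 0 := by
      intro k hk
      rw [H.neg m w₂, map_neg, M2 m k hk, neg_zero]
    have h4 : X (X (X w₂ m) m) w₁ = 0 := H.mulMM h₁ h₂ hX h21 h3 hm
    rw [h4] at h
    simp only [map_zero, LinearMap.zero_apply, smul_zero, mul_zero, zero_smul, sub_zero, add_zero,
      zero_add] at h
    rw [H.neg m w₂] at h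
    simp only [map_neg, LinearMap.neg_apply, neg_eq_zero] at h
    have h5 := congrArg (fun t => B t k₃) h
    simp only [map_zero, LinearMap.zero_apply] at h5
    rw [H.cyc] at h5
    exact h5
  have C2 : ∀ m n, (∀ k, X k w₁ = 0 → B k m = 0) → (∀ k, X k w₁ = 0 → B k n = 0) →
      B (X (X m w₂) w₁) (X n k₃) + B (X (X n w₂) w₁) (X m k₃) = 0 := by
    intro m n hm hn
    have h := C (m + n) fun k hk => by rw [map_add, hm k hk, hn k hk, add_zero]
    simp only [map_add, LinearMap.add_apply] at h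
    linear_combination h - C m hm - C n hn
  have C3 : ∀ m, (∀ k, X k w₁ = 0 → B k m = 0) → X (X (X m k₃) w₂) w₁ = 0 := by
    intro m hm
    -- orthogonal to M
    have D : ∀ n, (∀ k, X k w₁ = 0 → B k n = 0) → B (X (X (X m k₃) w₂) w₁) n = 0 := by
      intro n hn
      have h := C2 m n hm hn
      -- first term: B (R₁R₂m) (R₃n) = - B (R₃R₁R₂m) n
      have t1 : B (X (X m w₂) w₁) (X n k₃) = -B (X (X (X m w₂) w₁) k₃) n := by
        rw [H.skew (X (X m w₂) w₁) n k₃, neg_neg]
      have t2 : B (X (X n w₂) w₁) (X m k₃) = B n (X (X (X m k₃) w₁) w₂) := by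
        rw [H.skew, H.skew, neg_neg]
      have t3 : X (X (X m w₂) w₁) k₃ = X (X (X m k₃) w₂) w₁ := by
        rw [a13 _ (M2 m), a23 m hm]
        simp only [map_neg, LinearMap.neg_apply, neg_neg]
      have t4 : X (X (X m k₃) w₁) w₂ = -X (X (X m k₃) w₂) w₁ := a12 _ (M3 m)
      rw [t1, t2, t3, t4, map_neg, H.symm n] at h
      have h5 : 2 * B (X (X (X m k₃) w₂) w₁) n = 0 := by linear_combination -h
      exact (mul_eq_zero.1 h5).resolve_left H.two
    apply H.nondeg
    intro y
    set yk := y + (B w₁ w₁)⁻¹ • X (X y w₁) w₁ with hyk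
    have e3 : X yk w₁ = 0 := H.partK h₁ y
    have e4 : B (X (X (X m k₃) w₂) w₁) yk = 0 := by rw [H.symm]; exact M1 _ yk e3
    rw [hyk, map_add, map_smul, D _ (M1 _), smul_zero, add_zero] at e4
    exact e4
  have C4 : ∀ m, (∀ k, X k w₁ = 0 → B k m = 0) → X m k₃ = 0 := fun m hm =>
    H.inter h₂ (c2 (M3 m)) (H.inter h₁ (M2 _) (C3 m hm))
  -- `k₃` is central
  by_contra hk0
  obtain ⟨x, y, hxy⟩ := hne
  refine hxy (H.center (k := k₃) (fun v => ?_) hk0 x y)
  have e1 : X (v + (B w₁ w₁)⁻¹ • X (X v w₁) w₁) w₁ = 0 := H.partK h₁ v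
  have e2 := H.ker_abelian h₁ e1 hk
  rw [map_add, map_smul, LinearMap.add_apply, LinearMap.smul_apply, C4 _ (M1 _), smul_zero,
    add_zero] at e2
  exact e2

/-- every element of `K` -/
theorem K_span (h21 : B w₂ w₁ = 0) (hne : ∃ x y, X x y ≠ 0) {k : V} (hk : X k w₁ = 0) :
    k = (B k w₁ / B w₁ w₁) • w₁ + (B k w₂ / B w₂ w₂) • w₂ := by
  have h12 : B w₁ w₂ = 0 := by rw [H.symm]; exact h21
  have h := H.K_two h₁ h₂ hX h21 hne
    (k₃ := k - (B k w₁ / B w₁ w₁) • w₁ - (B k w₂ / B w₂ w₂) • w₂)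
    (by simp only [map_sub, map_smul, LinearMap.sub_apply, LinearMap.smul_apply, hk, hX, H.alt,
          smul_zero, sub_zero])
    (by simp only [map_sub, map_smul, LinearMap.sub_apply, LinearMap.smul_apply, h21, smul_eq_mul,
          mul_zero, div_mul_cancel₀ _ h₁, sub_self])
    (by simp only [map_sub, map_smul, LinearMap.sub_apply, LinearMap.smul_apply, h12, smul_eq_mul,
          mul_zero, sub_zero, div_mul_cancel₀ _ h₂, sub_self])
  linear_combination (norm := module) h

omit h₂ hX in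
/-- `M` contains a nonisotropic vector -/
theorem exists_m (hne : ∃ x y, X x y ≠ 0) :
    ∃ m, (∀ k, X k w₁ = 0 → B k m = 0) ∧ B m m ≠ 0 := by
  by_contra hc
  push Not at hc
  have h1 : ∀ m n, (∀ k, X k w₁ = 0 → B k m = 0) → (∀ k, X k w₁ = 0 → B k n = 0) → B m n = 0 := by
    intro m n hm hn
    have h := hc (m + n) fun k hk => by rw [map_add, hm k hk, hn k hk, add_zero]
    simp only [map_add, LinearMap.add_apply, hc m hm, hc n hn, H.symm n m] at h
    have h2 : 2 * B m n = 0 := by linear_combination h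
    exact (mul_eq_zero.1 h2).resolve_left H.two
  have h2 : ∀ v, X v w₁ = 0 := by
    intro v
    apply H.nondeg
    intro y
    set yk := y + (B w₁ w₁)⁻¹ • X (X y w₁) w₁ with hyk
    have e3 : X yk w₁ = 0 := H.partK h₁ y
    have e4 : B (X v w₁) yk = 0 := by rw [H.symm]; exact H.inM_im yk e3
    rw [hyk, map_add, map_smul, h1 _ _ H.inM_im H.inM_im, smul_zero, add_zero] at e4
    exact e4
  obtain ⟨x, y, hxy⟩ := hne
  exact hxy (H.center h2 (by rintro rfl; exact h₁ (by simp)) x y)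

/-- `M` is spanned by four vectors -/
theorem M_span (h21 : B w₂ w₁ = 0) (hne : ∃ x y, X x y ≠ 0) {m : V}
    (hm : ∀ k, X k w₁ = 0 → B k m = 0) (hmm : B m m ≠ 0) {n : V}
    (hn : ∀ k, X k w₁ = 0 → B k n = 0) :
    ∃ a b c d : F, n = a • m + b • X m w₁ + c • X m w₂ + d • X (X m w₂) w₁ := by
  have M1 : ∀ v, ∀ k, X k w₁ = 0 → B k (X v w₁) = 0 := fun v => H.inM_im
  have hm0 : B w₁ m = 0 := hm w₁ (H.alt w₁)
  -- formula for `R₁ n'`
  have key : ∀ n', (∀ k, X k w₁ = 0 → B k n' = 0) →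
      ∃ a b c d : F, (B m m) • X n' w₁ = a • m + b • X m w₁ + c • X m w₂ + d • X (X m w₂) w₁ := by
    intro n' hn'
    have h := H.lin n' w₁ m
    rw [H.mulMM h₁ h₂ hX h21 hn' hm, hm0] at h
    simp only [map_zero, LinearMap.zero_apply, mul_zero, zero_smul, sub_zero, add_zero] at h
    -- h : X (X (X n' w₁) m) m + X (X (X n' m) m) w₁ = -(B m m) • X n' w₁
    have k1 := H.K_span h₁ h₂ hX h21 hne (H.mulMM h₁ h₂ hX h21 hn' hm)
    have k2 := H.K_span h₁ h₂ hX h21 hne (H.mulMM h₁ h₂ hX h21 (M1 n') hm)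
    have s1 : X (X (X n' w₁) m) m = -((B (X (X n' w₁) m) w₁ / B w₁ w₁) • X m w₁ +
        (B (X (X n' w₁) m) w₂ / B w₂ w₂) • X m w₂) := by
      conv_lhs => rw [k2]
      rw [map_add, map_smul, map_smul, LinearMap.add_apply, LinearMap.smul_apply,
        LinearMap.smul_apply, H.neg m w₁, H.neg m w₂]
      module
    have s2 : X (X (X n' m) m) w₁ = -((B (X n' m) w₁ / B w₁ w₁) • X (X m w₁) w₁ +
        (B (X n' m) w₂ / B w₂ w₂) • X (X m w₂) w₁) := by
      conv_lhs => rw [k1]
      rw [map_add, map_smul, map_smul, LinearMap.add_apply, LinearMap.smul_apply,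
        LinearMap.smul_apply, H.neg m w₁, H.neg m w₂]
      simp only [map_add, map_smul, map_neg, LinearMap.add_apply, LinearMap.smul_apply,
        LinearMap.neg_apply]
      module
    rw [s1, s2, H.sqM h₁ hm] at h
    refine ⟨-(B (X n' m) w₁), B (X (X n' w₁) m) w₁ / B w₁ w₁, B (X (X n' w₁) m) w₂ / B w₂ w₂,
      B (X n' m) w₂ / B w₂ w₂, ?_⟩
    have e : (B (X n' m) w₁ / B w₁ w₁) * B w₁ w₁ = B (X n' m) w₁ := div_mul_cancel₀ _ h₁
    have e' : (B (X n' m) w₁ / B w₁ w₁) • (-(B w₁ w₁) • m) = -(B (X n' m) w₁) • m := by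
      rw [smul_smul, mul_neg, e]
    rw [e'] at h
    linear_combination (norm := module) h
  obtain ⟨a, b, c, d, h⟩ := key (X n w₁) (M1 n)
  rw [H.sqM h₁ hn] at h
  refine ⟨-(B m m * B w₁ w₁)⁻¹ * a, -(B m m * B w₁ w₁)⁻¹ * b, -(B m m * B w₁ w₁)⁻¹ * c,
    -(B m m * B w₁ w₁)⁻¹ * d, ?_⟩
  have h3 : n = -(B m m * B w₁ w₁)⁻¹ • ((B m m) • (-(B w₁ w₁) • n)) := by
    rw [smul_smul, smul_smul]
    have : -(B m m * B w₁ w₁)⁻¹ * B m m * -(B w₁ w₁) = 1 := by
      field_simp
    rw [this, one_smul]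
  rw [h] at h3
  conv_lhs => rw [h3]
  module

end pair


/-- the orthogonal basis in case B -/
theorem caseB {w₁ w₂ : V} (h₁ : B w₁ w₁ ≠ 0) (h₂ : B w₂ w₂ ≠ 0) (hX : X w₂ w₁ = 0)
    (h21 : B w₂ w₁ = 0) (hne : ∃ x y, X x y ≠ 0) : Module.finrank F V = 6 := by
  obtain ⟨m, hm, hmm⟩ := H.exists_m h₁ hne
  have hX' : X w₁ w₂ = 0 := by rw [H.neg, hX, neg_zero]
  have hiff := H.ker_iff h₁ h₂ hX
  have M1 : ∀ v, ∀ k, X k w₁ = 0 → B k (X v w₁) = 0 := fun v => H.inM_im
  have M2 : ∀ v, ∀ k, X k w₁ = 0 → B k (X v w₂) = 0 := fun v => H.inM_im2 h₁ h₂ hX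
  have a12 : ∀ m, (∀ k, X k w₁ = 0 → B k m = 0) → X (X m w₁) w₂ = -X (X m w₂) w₁ :=
    fun m hm => H.anti h₁ hX h21 hm
  have q1 : X (X m w₁) w₁ = -(B w₁ w₁) • m := H.sqM h₁ hm
  have q2 : X (X m w₂) w₂ = -(B w₂ w₂) • m := H.sqM2 h₁ h₂ hX hm
  have kw2 : X w₂ w₁ = 0 := hX
  have kw1 : X w₁ w₁ = 0 := H.alt w₁
  have p1 : B m (X m w₁) = 0 := by rw [← H.cyc, H.alt, map_zero, LinearMap.zero_apply]
  have p2 : B m (X m w₂) = 0 := by rw [← H.cyc, H.alt, map_zero, LinearMap.zero_apply]
  have p3 : B m (X (X m w₂) w₁) = 0 := by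
    have e1 : B m (X (X m w₂) w₁) = B m (X (X m w₁) w₂) := by
      have s1 := H.skew m (X m w₂) w₁
      have s2 := H.skew m (X m w₁) w₂
      have s3 := H.symm (X m w₁) (X m w₂)
      linear_combination s1 - s2 - s3
    rw [a12 m hm, map_neg] at e1
    have : 2 * B m (X (X m w₂) w₁) = 0 := by linear_combination e1
    exact (mul_eq_zero.1 this).resolve_left H.two
  have p4 : B (X m w₁) (X m w₂) = 0 := by
    rw [H.symm, ← neg_eq_zero, ← H.skew, H.symm, p3]
  have p5 : B (X m w₁) (X (X m w₂) w₁) = 0 := by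
    have s := H.skew (X m w₁) (X m w₂) w₁
    rw [q1, map_smul, LinearMap.smul_apply, p2, smul_zero] at s
    linear_combination s
  have p6 : B (X m w₂) (X (X m w₂) w₁) = 0 := by
    rw [← H.cyc, H.alt, map_zero, LinearMap.zero_apply]
  have n1 : B (X m w₁) (X m w₁) = B w₁ w₁ * B m m := by
    have s := H.skew (X m w₁) m w₁
    rw [q1, map_smul, LinearMap.smul_apply, smul_eq_mul] at s
    linear_combination s
  have n2 : B (X m w₂) (X m w₂) = B w₂ w₂ * B m m := by
    have s := H.skew (X m w₂) m w₂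
    rw [q2, map_smul, LinearMap.smul_apply, smul_eq_mul] at s
    linear_combination s
  have n3 : B (X (X m w₂) w₁) (X (X m w₂) w₁) = B w₁ w₁ * (B w₂ w₂ * B m m) := by
    have s := H.skew (X (X m w₂) w₁) (X m w₂) w₁
    rw [H.sqM h₁ (M2 m), map_smul, LinearMap.smul_apply, smul_eq_mul, n2] at s
    linear_combination s
  have z12 : B w₁ w₂ = 0 := by rw [H.symm]; exact h21
  let e : Fin 6 → V := ![w₁, w₂, m, X m w₁, X m w₂, X (X m w₂) w₁]
  have hli : LinearIndependent F e := by
    refine LinearMap.linearIndependent_of_isOrthoᵢ (B := B) ?_ ?_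
    · rw [LinearMap.isOrthoᵢ_def]
      have upper : ∀ i j : Fin 6, i < j → B (e i) (e j) = 0 := by
        intro i j hij
        fin_cases i <;> fin_cases j <;> first
          | exact absurd hij (by decide)
          | exact z12
          | exact hm _ kw1
          | exact M1 _ _ kw1
          | exact M2 _ _ kw1
          | exact hm _ kw2
          | exact M1 _ _ kw2
          | exact M2 _ _ kw2
          | exact p1
          | exact p2
          | exact p3
          | exact p4
          | exact p5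
          | exact p6
      intro i j hij
      rcases lt_or_gt_of_ne hij with h | h
      · exact upper i j h
      · rw [H.symm]; exact upper j i h
    · intro i
      fin_cases i
      · exact h₁
      · exact h₂
      · exact hmm
      · show B (X m w₁) (X m w₁) ≠ 0
        rw [n1]; exact mul_ne_zero h₁ hmm
      · show B (X m w₂) (X m w₂) ≠ 0
        rw [n2]; exact mul_ne_zero h₂ hmm
      · show B (X (X m w₂) w₁) (X (X m w₂) w₁) ≠ 0
        rw [n3]; exact mul_ne_zero h₁ (mul_ne_zero h₂ hmm)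
  have hsp : ⊤ ≤ Submodule.span F (Set.range e) := by
    intro y _
    have b : ∀ i, e i ∈ Submodule.span F (Set.range e) := fun i => Submodule.subset_span ⟨i, rfl⟩
    have hy : y = (y + (B w₁ w₁)⁻¹ • X (X y w₁) w₁) - (B w₁ w₁)⁻¹ • X (X y w₁) w₁ := by abel
    rw [hy]
    refine Submodule.sub_mem _ ?_ (Submodule.smul_mem _ _ ?_)
    · rw [H.K_span h₁ h₂ hX h21 hne (H.partK h₁ y)]
      exact Submodule.add_mem _ (Submodule.smul_mem _ _ (b 0)) (Submodule.smul_mem _ _ (b 1))
    · obtain ⟨a, c, d, f, h⟩ := H.M_span h₁ h₂ hX h21 hne hm hmm (M1 (X y w₁))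
      rw [h]
      exact Submodule.add_mem _ (Submodule.add_mem _ (Submodule.add_mem _
        (Submodule.smul_mem _ _ (b 2)) (Submodule.smul_mem _ _ (b 3)))
        (Submodule.smul_mem _ _ (b 4))) (Submodule.smul_mem _ _ (b 5))
  have := Module.finrank_eq_card_basis (Module.Basis.mk hli hsp)
  simpa using this

/-- classification of the cross products -/
theorem main : (∀ x y, X x y = 0) ∨ (∀ v w, X (X v w) w = -(B w w) • v + (B v w) • w) ∨
    Module.finrank F V = 6 := by
  by_cases hne : ∃ x y, X x y ≠ 0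
  · by_cases hk : ∀ w, B w w ≠ 0 → ∀ k, X k w = 0 → ∃ c : F, k = c • w
    · exact Or.inr (Or.inl (H.caseA hne hk))
    · push Not at hk
      obtain ⟨w, hw, k, hkw, hc⟩ := hk
      obtain ⟨u, hu, huw, hBu⟩ := H.exists_second hw hkw hc
      exact Or.inr (Or.inr (H.caseB hw hu huw hBu hne))
  · push Not at hne
    exact Or.inl hne

end Cross

end Quad46
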