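import Mathlib

/-!
# Definitions: simple, quadratic, noncommutative Jordan, alternative, Jordan algebras
-/

namespace Quad46

/-- two-sided ideals of the `F`-algebra `A` -/
def IsIdeal (F : Type*) {A : Type*} [Field F] [NonAssocRing A] [Module F A]
    (I : Submodule F A) : Prop :=
  ∀ a x : A, x ∈ I → a * x ∈ I ∧ x * a ∈ I

/-- simple algebras -/
def IsSimpleAlg (F A : Type*) [Field F] [NonAssocRing A] [Module F A] : Prop :=
  (∃ a b : A, a * b ≠ 0) ∧ ∀ I : Submodule F A, IsIdeal F I → I = ⊥ ∨ I = ⊤

/-- every element satisfies a quadratic equation over `F` -/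
def IsQuadratic (F A : Type*) [Field F] [NonAssocRing A] [Module F A] : Prop :=
  ∀ x : A, ∃ s n : F, x * x = s • x + n • (1 : A)

/-- flexible algebras with the Jordan identity -/
def IsNCJordan (A : Type*) [NonAssocRing A] : Prop :=
  (∀ x y : A, (x * y) * x = x * (y * x)) ∧ ∀ x y : A, ((x * x) * y) * x = (x * x) * (y * x)

/-- alternative algebras -/
def IsAlternativeAlg (A : Type*) [NonAssocRing A] : Prop :=
  (∀ x y : A, (x * x) * y = x * (x * y)) ∧ ∀ x y : A, (y * x) * x = y * (x * x)

/-- Jordan algebras: commutative with `(x², y, x) = 0` -/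
def IsJordanAlg (A : Type*) [NonAssocRing A] : Prop :=
  (∀ x y : A, x * y = y * x) ∧ ∀ x y : A, ((x * x) * y) * x = (x * x) * (y * x)

/-- the identity `([x, y], y, y) = 0` -/
def CommIdentity (A : Type*) [NonAssocRing A] : Prop :=
  ∀ x y : A, ((x * y - y * x) * y) * y = (x * y - y * x) * (y * y)

end Quad46
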