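import Pool.Agent.LibQuad46.Cross
import Pool.Agent.LibQuad46.Defs

/-!
# Simple quadratic algebras with `([x, y], y, y) = 0`
-/

namespace Quad46

section
variable {F A : Type*} [Field F] [NonAssocRing A] [Module F A]

theorem one_ne (hs : IsSimpleAlg F A) : (1 : A) ≠ 0 := by
  intro h
  obtain ⟨x, y, hxy⟩ := hs.1
  apply hxy
  rw [← one_mul x, h, zero_mul, zero_mul]

/-- scalar square and not a nonzero scalar -/
def QV (F : Type*) {A : Type*} [Field F] [NonAssocRing A] [Module F A] (v : A) : Prop :=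
  (∃ n : F, v * v = n • (1 : A)) ∧ ∀ c : F, v = c • (1 : A) → v = 0

/-- `v` is a scalar multiple of one if a nonzero multiple is -/
theorem QV.zero_of {v : A} (hv : QV F v) {a b : F} (ha : a ≠ 0) (h : a • v = b • (1 : A)) :
    v = 0 := by
  apply hv.2 (a⁻¹ * b)
  rw [← smul_smul, ← h, smul_smul, inv_mul_cancel₀ ha, one_smul]

variable [IsScalarTower F A A] [SMulCommClass F A A]

theorem QV.smul {v : A} (c : F) (hv : QV F v) : QV F (c • v) := by
  obtain ⟨⟨n, hn⟩, hv⟩ := hv
  refine ⟨⟨c * c * n, ?_⟩, ?_⟩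
  · rw [smul_mul_smul_comm, hn, smul_smul]
  · intro d hd
    by_cases hc : c = 0
    · rw [hc, zero_smul]
    · have : v = (c⁻¹ * d) • (1 : A) := by
        rw [← smul_smul, ← hd, smul_smul, inv_mul_cancel₀ hc, one_smul]
      rw [hv _ this, smul_zero]

theorem QV.add (h2 : (2 : F) ≠ 0) (hq : IsQuadratic F A) {u v : A} (hu : QV F u) (hv : QV F v) :
    QV F (u + v) := by
  obtain ⟨n, hn⟩ := hu.1
  obtain ⟨m, hm⟩ := hv.1
  obtain ⟨α, β, h⟩ := hq (u + v)
  obtain ⟨γ, δ, h'⟩ := hq (u - v)
  have e1 : (u + v) * (u + v) = u * u + v * v + (u * v + v * u) := by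
    rw [add_mul, mul_add, mul_add]; abel
  have e2 : (u - v) * (u - v) = u * u + v * v - (u * v + v * u) := by
    rw [sub_mul, mul_sub, mul_sub]; abel
  have e3 : (α + γ) • u + (α - γ) • v = (2 * n + 2 * m - β - δ) • (1 : A) := by
    have : (u + v) * (u + v) + (u - v) * (u - v) = (2 * n) • (1 : A) + (2 * m) • (1 : A) := by
      rw [e1, e2, hn, hm]; module
    rw [h, h'] at this
    linear_combination (norm := module) this
  by_cases c1 : α + γ = 0
  · by_cases c2 : α - γ = 0
    · have hα : α = 0 := by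
        have : 2 * α = 0 := by linear_combination c1 + c2
        exact (mul_eq_zero.1 this).resolve_left h2
      rw [hα, zero_smul, zero_add] at h
      refine ⟨⟨β, h⟩, ?_⟩
      intro c hc
      have hu' : u = c • (1 : A) - v := by rw [← hc]; abel
      have e4 : (2 * c) • v = (c * c + m - n) • (1 : A) := by
        have : u * u = (c * c) • (1 : A) - (2 * c) • v + m • (1 : A) := by
          rw [hu', sub_mul, mul_sub, mul_sub, hm, smul_mul_assoc, smul_mul_assoc, one_mul, one_mul,
            mul_smul_comm, mul_one]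
          module
        rw [hn] at this
        linear_combination (norm := module) this
      by_cases hc0 : c = 0
      · rw [hc, hc0, zero_smul]
      · have hv0 := hv.zero_of (mul_ne_zero h2 hc0) e4
        rw [hv0, add_zero] at hc ⊢
        exact hu.2 c hc
    · rw [c1, zero_smul, zero_add] at e3
      rw [hv.zero_of c2 e3, add_zero]
      exact hu
  · have hu' : u = (-((α + γ)⁻¹ * (α - γ))) • v + ((α + γ)⁻¹ * (2 * n + 2 * m - β - δ)) • (1 : A) := by
      have h3 : u = (α + γ)⁻¹ • ((α + γ) • u) := by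
        rw [smul_smul, inv_mul_cancel₀ c1, one_smul]
      conv_lhs => rw [h3]
      have h4 : (α + γ) • u = (2 * n + 2 * m - β - δ) • (1 : A) - (α - γ) • v := by
        rw [← e3]; abel
      rw [h4]
      module
    generalize (-((α + γ)⁻¹ * (α - γ))) = a at hu'
    generalize ((α + γ)⁻¹ * (2 * n + 2 * m - β - δ)) = b at hu'
    have e4 : (2 * (a * b)) • v = (n - a * a * m - b * b) • (1 : A) := by
      have : u * u = (a * a * m) • (1 : A) + (2 * (a * b)) • v + (b * b) • (1 : A) := by
        rw [hu', add_mul, mul_add, mul_add, smul_mul_smul_comm, hm, smul_mul_smul_comm,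
          smul_mul_smul_comm, smul_mul_smul_comm, mul_one, one_mul, one_mul]
        module
      rw [hn] at this
      linear_combination (norm := module) -(1 : F) • this
    by_cases hab : a * b = 0
    · rcases mul_eq_zero.1 hab with ha | hb
      · rw [ha, zero_smul, zero_add] at hu'
        rw [hu.2 b hu', zero_add]
        exact hv
      · rw [hb, zero_smul, add_zero] at hu'
        have : u + v = (a + 1) • v := by rw [hu']; module
        rw [this]
        exact hv.smul _
    · rw [hv.zero_of (mul_ne_zero h2 hab) e4, add_zero]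
      exact hu

/-- the space of elements of trace zero -/
def VV (h2 : (2 : F) ≠ 0) (hq : IsQuadratic F A) : Submodule F A where
  carrier := {v | QV F v}
  zero_mem' := ⟨⟨0, by simp⟩, fun _ _ => rfl⟩
  smul_mem' := fun c _ hv => QV.smul c hv
  add_mem' := fun hu hv => QV.add h2 hq hu hv

theorem mem_VV {h2 : (2 : F) ≠ 0} {hq : IsQuadratic F A} {v : A} : v ∈ VV h2 hq ↔ QV F v := Iff.rfl

theorem isCompl_VV (h2 : (2 : F) ≠ 0) (hq : IsQuadratic F A) :
    IsCompl (VV h2 hq) (Submodule.span F {(1 : A)}) := by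
  constructor
  · rw [Submodule.disjoint_def]
    intro v hv hv1
    obtain ⟨c, rfl⟩ := Submodule.mem_span_singleton.1 hv1
    exact (mem_VV.1 hv).2 c rfl
  · rw [codisjoint_iff, eq_top_iff]
    intro x _
    obtain ⟨s, n, h⟩ := hq x
    rw [Submodule.mem_sup]
    by_cases hx : ∃ c : F, x = c • (1 : A)
    · obtain ⟨c, rfl⟩ := hx
      exact ⟨0, Submodule.zero_mem _, c • 1, Submodule.smul_mem _ _
        (Submodule.mem_span_singleton_self _), zero_add _⟩
    · refine ⟨x - (s / 2) • (1 : A), ?_, (s / 2) • (1 : A), Submodule.smul_mem _ _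
        (Submodule.mem_span_singleton_self _), sub_add_cancel _ _⟩
      refine ⟨⟨n + s / 2 * (s / 2), ?_⟩, ?_⟩
      · have hs : s = s / 2 + s / 2 := by field_simp; ring
        have h' : x * x = (s / 2 + s / 2) • x + n • (1 : A) := by rw [← hs]; exact h
        rw [sub_mul, mul_sub, mul_sub, h', smul_mul_assoc, one_mul, mul_smul_comm, mul_one,
          smul_mul_assoc, one_mul]
        module
      · intro c hc
        exact absurd ⟨c + s / 2, by rw [add_smul, ← hc]; abel⟩ hx


omit [IsScalarTower F A A] [SMulCommClass F A A] in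
theorem smul_one_inj {a b : F} (h1 : (1 : A) ≠ 0) (h : a • (1 : A) = b • (1 : A)) : a = b :=
  smul_left_injective F h1 h

section proj

variable (h2 : (2 : F) ≠ 0) (hq : IsQuadratic F A) (h1 : (1 : A) ≠ 0)

/-- projection to the trace zero part -/
noncomputable def PP : A →ₗ[F] VV h2 hq :=
  (VV h2 hq).projectionOnto _ (isCompl_VV h2 hq)

/-- the scalar part -/
noncomputable def TT : A →ₗ[F] F :=
  (LinearEquiv.toSpanNonzeroSingleton F A 1 h1).symm.toLinearMap ∘ₗ
    (Submodule.span F {(1 : A)}).projectionOnto _ (isCompl_VV h2 hq).symm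

include h1

theorem TT_smul_one (x : A) : (TT h2 hq h1 x) • (1 : A) =
    ((Submodule.span F {(1 : A)}).projectionOnto _ (isCompl_VV h2 hq).symm x : A) := by
  have h := LinearEquiv.apply_symm_apply (LinearEquiv.toSpanNonzeroSingleton F A 1 h1)
    ((Submodule.span F {(1 : A)}).projectionOnto _ (isCompl_VV h2 hq).symm x)
  have h' := congrArg Subtype.val h
  rw [LinearEquiv.toSpanNonzeroSingleton_apply] at h'
  exact h'

theorem decomp (x : A) : x = (TT h2 hq h1 x) • (1 : A) + (PP h2 hq x : A) := by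
  rw [TT_smul_one, PP, add_comm]
  rw [Submodule.coe_projectionOnto_apply, Submodule.coe_projectionOnto_apply]
  exact (Submodule.projection_add_projection_eq_self (isCompl_VV h2 hq) x).symm

theorem uniq {a b : F} {v w : VV h2 hq} (h : a • (1 : A) + (v : A) = b • (1 : A) + (w : A)) :
    a = b ∧ v = w := by
  have h3 : ((v - w : VV h2 hq) : A) = (b - a) • (1 : A) := by
    push_cast
    linear_combination (norm := module) h
  have h4 := (mem_VV.1 (v - w).2).2 _ h3
  have h5 : v = w := by
    rw [← sub_eq_zero]; exact Subtype.ext h4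
  refine ⟨?_, h5⟩
  subst h5
  exact smul_one_inj h1 (add_right_cancel h)

theorem TT_PP_of {x : A} {a : F} {v : VV h2 hq} (h : x = a • (1 : A) + (v : A)) :
    TT h2 hq h1 x = a ∧ PP h2 hq x = v := by
  have := decomp h2 hq h1 x
  rw [h] at this
  rw [h]
  exact uniq h2 hq h1 this.symm

/-- the form -/
noncomputable def BB : VV h2 hq →ₗ[F] VV h2 hq →ₗ[F] F :=
  LinearMap.mk₂ F (fun v w => -TT h2 hq h1 ((v : A) * (w : A)))
    (fun v v' w => by push_cast; rw [add_mul, map_add]; ring)
    (fun c v w => by push_cast; rw [smul_mul_assoc, map_smul, smul_eq_mul, smul_eq_mul]; ring)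
    (fun v w w' => by push_cast; rw [mul_add, map_add]; ring)
    (fun c v w => by push_cast; rw [mul_smul_comm, map_smul, smul_eq_mul, smul_eq_mul]; ring)

/-- the cross product -/
noncomputable def XX : VV h2 hq →ₗ[F] VV h2 hq →ₗ[F] VV h2 hq :=
  LinearMap.mk₂ F (fun v w => PP h2 hq ((v : A) * (w : A)))
    (fun v v' w => by push_cast; rw [add_mul, map_add])
    (fun c v w => by push_cast; rw [smul_mul_assoc, map_smul])
    (fun v w w' => by push_cast; rw [mul_add, map_add])
    (fun c v w => by push_cast; rw [mul_smul_comm, map_smul])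

theorem mul_eq (v w : VV h2 hq) : (v : A) * (w : A) =
    (-(BB h2 hq h1 v w)) • (1 : A) + (XX h2 hq v w : A) := by
  have := decomp h2 hq h1 ((v : A) * (w : A))
  rw [BB, XX, LinearMap.mk₂_apply, LinearMap.mk₂_apply, neg_neg]
  exact this

theorem XX_self (v : VV h2 hq) : XX h2 hq v v = 0 := by
  obtain ⟨n, hn⟩ := (mem_VV.1 v.2).1
  rw [XX, LinearMap.mk₂_apply, hn]
  exact (TT_PP_of h2 hq h1 (x := n • (1 : A)) (a := n) (v := 0) (by simp)).2

theorem XX_neg (v w : VV h2 hq) : XX h2 hq w v = -XX h2 hq v w := by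
  have h := XX_self h2 hq h1 (v + w)
  simp only [map_add, LinearMap.add_apply, XX_self h2 hq h1] at h
  rw [zero_add, add_zero] at h
  exact eq_neg_of_add_eq_zero_left h

variable (hf : ∀ x y : A, (x * y) * x = x * (y * x))
include hf

theorem BB_flex (v w : VV h2 hq) :
    BB h2 hq h1 v w = BB h2 hq h1 w v ∧
      BB h2 hq h1 (XX h2 hq v w) v + BB h2 hq h1 v (XX h2 hq v w) = 0 := by
  have h := hf (v : A) (w : A)
  rw [mul_eq h2 hq h1 v w, mul_eq h2 hq h1 w v, XX_neg h2 hq h1 v w] at h
  rw [add_mul, mul_add, smul_mul_assoc, one_mul, mul_smul_comm, mul_one] at h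
  push_cast at h
  rw [mul_neg] at h
  rw [mul_eq h2 hq h1 (XX h2 hq v w) v, mul_eq h2 hq h1 v (XX h2 hq v w),
    XX_neg h2 hq h1 v (XX h2 hq v w)] at h
  push_cast at h
  have h3 : (BB h2 hq h1 w v - BB h2 hq h1 v w) • (v : A) =
      (BB h2 hq h1 (XX h2 hq v w) v + BB h2 hq h1 v (XX h2 hq v w)) • (1 : A) := by
    linear_combination (norm := module) h
  by_cases hb : BB h2 hq h1 w v - BB h2 hq h1 v w = 0
  · refine ⟨(sub_eq_zero.1 hb).symm, ?_⟩
    rw [hb, zero_smul] at h3
    exact smul_one_inj h1 (by rw [← h3, zero_smul])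
  · have hv0 := (mem_VV.1 v.2).zero_of hb h3
    have hv : v = 0 := Subtype.ext hv0
    subst hv
    simp

theorem BB_symm (v w : VV h2 hq) : BB h2 hq h1 v w = BB h2 hq h1 w v :=
  (BB_flex h2 hq h1 hf v w).1

theorem BB_XX (v w : VV h2 hq) : BB h2 hq h1 (XX h2 hq v w) v = 0 := by
  have h := (BB_flex h2 hq h1 hf v w).2
  rw [BB_symm h2 hq h1 hf v] at h
  have : 2 * BB h2 hq h1 (XX h2 hq v w) v = 0 := by linear_combination h
  exact (mul_eq_zero.1 this).resolve_left h2

theorem BB_cyc (x y z : VV h2 hq) :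
    BB h2 hq h1 (XX h2 hq x y) z = BB h2 hq h1 x (XX h2 hq y z) := by
  have h := BB_XX h2 hq h1 hf (x + z) y
  simp only [map_add, LinearMap.add_apply, BB_XX h2 hq h1 hf] at h
  have h3 := XX_neg h2 hq h1 z y
  rw [BB_symm h2 hq h1 hf x, h3, map_neg, LinearMap.neg_apply]
  linear_combination h

theorem BB_XX' (v w : VV h2 hq) : BB h2 hq h1 (XX h2 hq v w) w = 0 := by
  rw [BB_cyc h2 hq h1 hf, XX_self h2 hq h1, map_zero]

theorem ker_ideal :
    IsIdeal F ((LinearMap.ker (BB h2 hq h1)).map (VV h2 hq).subtype) := by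
  intro a x hx
  obtain ⟨v, hv, rfl⟩ := Submodule.mem_map.1 hx
  have hv0 : ∀ z, BB h2 hq h1 v z = 0 := fun z => by
    rw [LinearMap.mem_ker.1 hv, LinearMap.zero_apply]
  have hv0' : ∀ z, BB h2 hq h1 z v = 0 := fun z => by rw [BB_symm h2 hq h1 hf, hv0]
  have k1 : ∀ z, XX h2 hq v z ∈ LinearMap.ker (BB h2 hq h1) := fun z => by
    rw [LinearMap.mem_ker]
    ext y
    rw [BB_cyc h2 hq h1 hf, hv0, LinearMap.zero_apply]
  have k2 : ∀ z, XX h2 hq z v ∈ LinearMap.ker (BB h2 hq h1) := fun z => by
    rw [XX_neg h2 hq h1 v z]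
    exact Submodule.neg_mem _ (k1 z)
  have e1 : a * (v : A) = (((TT h2 hq h1 a) • v + XX h2 hq (PP h2 hq a) v : VV h2 hq) : A) := by
    conv_lhs => rw [decomp h2 hq h1 a]
    rw [add_mul, smul_mul_assoc, one_mul, mul_eq h2 hq h1, hv0']
    push_cast
    rw [neg_zero, zero_smul, zero_add]
  have e2 : (v : A) * a = (((TT h2 hq h1 a) • v + XX h2 hq v (PP h2 hq a) : VV h2 hq) : A) := by
    conv_lhs => rw [decomp h2 hq h1 a]
    rw [mul_add, mul_smul_comm, mul_one, mul_eq h2 hq h1, hv0]
    push_cast
    rw [neg_zero, zero_smul, zero_add]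
  constructor
  · show a * (v : A) ∈ _
    rw [e1]
    exact Submodule.mem_map_of_mem (f := (VV h2 hq).subtype)
      (Submodule.add_mem _ (Submodule.smul_mem _ _ hv) (k2 _))
  · show (v : A) * a ∈ _
    rw [e2]
    exact Submodule.mem_map_of_mem (f := (VV h2 hq).subtype)
      (Submodule.add_mem _ (Submodule.smul_mem _ _ hv) (k1 _))

theorem cross (hs : IsSimpleAlg F A) (hc : CommIdentity A) :
    Cross (BB h2 hq h1) (XX h2 hq) where
  two := h2
  symm := BB_symm h2 hq h1 hf
  alt := XX_self h2 hq h1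
  cyc := BB_cyc h2 hq h1 hf
  nondeg := by
    intro x hx
    rcases hs.2 _ (ker_ideal h2 hq h1 hf) with h | h
    · have hx' : (x : A) ∈ (LinearMap.ker (BB h2 hq h1)).map (VV h2 hq).subtype := by
        refine Submodule.mem_map_of_mem (f := (VV h2 hq).subtype) ?_
        rw [LinearMap.mem_ker]
        ext y
        rw [hx, LinearMap.zero_apply]
      rw [h, Submodule.mem_bot] at hx'
      exact Subtype.ext hx'
    · exfalso
      have h3 : (1 : A) ∈ (LinearMap.ker (BB h2 hq h1)).map (VV h2 hq).subtype := by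
        rw [h]; trivial
      obtain ⟨v, _, hv⟩ := Submodule.mem_map.1 h3
      have h4 : (v : A) = (1 : F) • (1 : A) := by rw [one_smul]; exact hv
      have h5 := (mem_VV.1 v.2).2 1 h4
      rw [h5, one_smul] at h4
      exact h1 h4.symm
  cube := by
    intro v w
    have h := hc (v : A) (w : A)
    set p := XX h2 hq v w with hp
    have e1 : (v : A) * (w : A) - (w : A) * (v : A) = (2 : F) • (p : A) := by
      rw [mul_eq h2 hq h1 v w, mul_eq h2 hq h1 w v, XX_neg h2 hq h1 v w,
        BB_symm h2 hq h1 hf w v, ← hp]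
      push_cast
      module
    have e2 : (p : A) * (w : A) = (XX h2 hq p w : A) := by
      rw [mul_eq h2 hq h1 p w, BB_XX' h2 hq h1 hf v w, neg_zero, zero_smul, zero_add]
    have e3 : (XX h2 hq p w : A) * (w : A) = (XX h2 hq (XX h2 hq p w) w : A) := by
      rw [mul_eq h2 hq h1 (XX h2 hq p w) w, BB_XX' h2 hq h1 hf p w, neg_zero, zero_smul, zero_add]
    have e4 : (w : A) * (w : A) = (-(BB h2 hq h1 w w)) • (1 : A) := by
      rw [mul_eq h2 hq h1 w w, XX_self h2 hq h1]
      push_cast
      rw [add_zero]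
    rw [e1, smul_mul_assoc, smul_mul_assoc, e2, e3, e4, smul_mul_assoc, mul_smul_comm,
      mul_one] at h
    apply Subtype.ext
    push_cast
    have h3 : (2 : F) • ((XX h2 hq (XX h2 hq p w) w : A) - -(BB h2 hq h1 w w) • (p : A)) = 0 := by
      rw [smul_sub, h, sub_self]
    rcases smul_eq_zero.1 h3 with h4 | h4
    · exact absurd h4 h2
    · exact sub_eq_zero.1 h4

end proj

theorem jordan_of_comm (hn : IsNCJordan A) (h : ∀ x y : A, x * y = y * x) : IsJordanAlg A :=
  ⟨h, hn.2⟩

/-- A simple quadratic algebra with `([x, y], y, y) = 0` is alternative, Jordan or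
`7`-dimensional. -/
theorem quadratic_case (h2 : (2 : F) ≠ 0) (hq : IsQuadratic F A) (hs : IsSimpleAlg F A)
    (hn : IsNCJordan A) (hc : CommIdentity A) :
    IsAlternativeAlg A ∨ IsJordanAlg A ∨ Module.finrank F A = 7 := by
  have h1 := one_ne hs
  have hf := hn.1
  have H := cross h2 hq h1 hf hs hc
  rcases H.main with h | h | h
  · right; left
    refine jordan_of_comm hn fun x y => ?_
    rw [decomp h2 hq h1 x, decomp h2 hq h1 y]
    rw [add_mul, mul_add, mul_add, add_mul, mul_add, mul_add, mul_eq h2 hq h1, mul_eq h2 hq h1, h,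
      h, BB_symm h2 hq h1 hf (PP h2 hq y)]
    simp only [smul_mul_assoc, mul_smul_comm, one_mul, mul_one]
    rw [smul_comm (TT h2 hq h1 y)]
    abel
  · left
    -- right alternative law for trace zero elements
    have r0 : ∀ v w : VV h2 hq, ((v : A) * (w : A)) * (w : A) = (v : A) * ((w : A) * (w : A)) := by
      intro v w
      have e4 : (w : A) * (w : A) = (-(BB h2 hq h1 w w)) • (1 : A) := by
        rw [mul_eq h2 hq h1 w w, XX_self h2 hq h1]
        push_cast
        rw [add_zero]
      rw [e4, mul_smul_comm, mul_one, mul_eq h2 hq h1 v w, add_mul, smul_mul_assoc, one_mul,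
        mul_eq h2 hq h1 (XX h2 hq v w) w, BB_XX' h2 hq h1 hf v w, h v w]
      push_cast
      module
    have r1 : ∀ x y : A, (y * x) * x = y * (x * x) := by
      intro x y
      rw [decomp h2 hq h1 x, decomp h2 hq h1 y]
      have r := r0 (PP h2 hq y) (PP h2 hq x)
      generalize (TT h2 hq h1 x) = a
      generalize (TT h2 hq h1 y) = b
      generalize ((PP h2 hq x : VV h2 hq) : A) = v at r ⊢
      generalize ((PP h2 hq y : VV h2 hq) : A) = w at r ⊢
      simp only [add_mul, mul_add, smul_mul_assoc, mul_smul_comm, one_mul, mul_one, smul_add, r]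
    refine ⟨fun x y => ?_, r1⟩
    -- linearised flexible law
    have f1 := hf (x + y) x
    have f2 := hf x x
    have f3 := hf y x
    have r := r1 x y
    have f4 : (x * x) * y + (y * x) * x = x * (x * y) + y * (x * x) := by
      simp only [add_mul, mul_add] at f1
      have : (x * x) * x + (x * x) * y + ((y * x) * x + (y * x) * y) =
          (x * (x * x) + x * (x * y)) + (y * (x * x) + y * (x * y)) := by
        rw [← sub_eq_zero] at f1 ⊢
        rw [← f1]
        abel
      rw [f2, f3] at this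
      rw [← sub_eq_zero] at this ⊢
      rw [← this]
      abel
    rw [r] at f4
    exact add_right_cancel f4
  · right; right
    have hV : Module.finrank F (VV h2 hq) = 6 := h
    have : Module.Finite F (VV h2 hq) := Module.finite_of_finrank_pos (by omega)
    rw [← (Submodule.prodEquivOfIsCompl _ _ (isCompl_VV h2 hq)).finrank_eq,
      Module.finrank_prod, hV, finrank_span_singleton h1]

end

end Quad46
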